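import Mathlib
import Pool.Agent.Helper63.SM.Defs
import Pool.Agent.Helper5.SM.Marg
import Pool.Agent.Helper38.SM.Gibbs

/-!
# PS1: conditional mutual information of two coordinates and the probability of a conflict

With `F = f_{Sij}` and `g = f_{Si} f_{Sj} / f_S`, `F` vanishes on the conflicts `{R (x i) (x j)}`, where `g` has the mass `cf`; the
total mass of `g` is one. Gibbs' inequality for `F` and `g` on `{F > 0}`.
-/

set_option autoImplicit false

open MeasureTheory Set Filter Topology

namespace Pool.Agent.Helper63.SM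

variable {X : Type*} [MeasurableSpace X] {μ : Measure X} [IsProbabilityMeasure μ]
  {R : X → X → Prop} {k : ℕ} {f : (Fin k → X) → ℝ}

/-- Integrating out one coordinate. -/
theorem lint_update98 (i : Fin k) {h : (Fin k → X) → ENNReal} (hm : Measurable h) :
    ∫⁻ x, h x ∂(Measure.pi fun _ : Fin k => μ) =
      ∫⁻ x, ∫⁻ z, h (Function.update x i z) ∂μ ∂(Measure.pi fun _ : Fin k => μ) := by
  classical
  have hX : Nonempty X := nonempty_of_isProbabilityMeasure μ
  let x0 : Fin k → X := fun _ => Classical.arbitrary X
  have hm' : Measurable fun x => ∫⁻ z, h (Function.update x i z) ∂μ := by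
    have h1 := (hm.lmarginal (fun _ : Fin k => μ) (s := {i}))
    rwa [lmarginal_singleton] at h1
  have h1 := lintegral_eq_lmarginal_univ (μ := fun _ : Fin k => μ) (f := h) x0
  have h2 := lintegral_eq_lmarginal_univ (μ := fun _ : Fin k => μ)
    (f := fun x => ∫⁻ z, h (Function.update x i z) ∂μ) x0
  rw [h1, h2, lmarginal_erase' h hm (Finset.mem_univ i), lmarginal_erase' _ hm' (Finset.mem_univ i)]
  congr 1
  funext x
  simp

/-- Integrating out two coordinates. -/
theorem lint_update2_98 (i j : Fin k) {h : (Fin k → X) → ENNReal} (hm : Measurable h) :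
    ∫⁻ x, h x ∂(Measure.pi fun _ : Fin k => μ) =
      ∫⁻ x, ∫⁻ z, ∫⁻ w, h (Function.update (Function.update x i z) j w) ∂μ ∂μ
        ∂(Measure.pi fun _ : Fin k => μ) := by
  classical
  have hm' : Measurable fun x => ∫⁻ z, h (Function.update x j z) ∂μ := by
    have h1 := (hm.lmarginal (fun _ : Fin k => μ) (s := {j}))
    rwa [lmarginal_singleton] at h1
  rw [lint_update98 j hm, lint_update98 i hm']

/-- The inner integrals. -/
theorem inner98 {a b : X → ℝ} (ha0 : ∀ z, 0 ≤ a z) (hai : Integrable a μ) (hb : Measurable b)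
    (hb0 : ∀ z, 0 ≤ b z) (hbi : Integrable b μ) {s : ℝ} (hs : 0 ≤ s) {A : Set (X × X)} (hA : MeasurableSet A) :
    ∫⁻ z, ∫⁻ w, A.indicator (fun _ => (1 : ENNReal)) (z, w) * ENNReal.ofReal (a z * b w / s) ∂μ ∂μ =
      ENNReal.ofReal ((∫ z, a z * ∫ w in {w | (z, w) ∈ A}, b w ∂μ ∂μ) / s) := by
  have hAz : ∀ z, MeasurableSet {w | (z, w) ∈ A} := fun z => hA.preimage measurable_prodMk_left
  set B : X → ℝ := fun z => ∫ w in {w | (z, w) ∈ A}, b w ∂μ with hB
  have hB0 : ∀ z, 0 ≤ B z := fun z => setIntegral_nonneg (hAz z) fun w _ => hb0 w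
  have hBm : Measurable B := by
    have h1 : StronglyMeasurable fun p : X × X => A.indicator (fun _ => (1 : ℝ)) p * b p.2 :=
      (((measurable_const.indicator hA).mul (hb.comp measurable_snd))).stronglyMeasurable
    have h2 := h1.integral_prod_right' (ν := μ)
    have h3 : B = fun z => ∫ w, A.indicator (fun _ => (1 : ℝ)) (z, w) * b w ∂μ := by
      funext z
      simp only [hB]
      rw [← integral_indicator (hAz z)]
      congr 1
      funext w
      by_cases hw : (z, w) ∈ A
      · rw [Set.indicator_of_mem (show w ∈ {w | (z, w) ∈ A} from hw), Set.indicator_of_mem hw, one_mul]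
      · rw [Set.indicator_of_notMem (show w ∉ {w | (z, w) ∈ A} from hw), Set.indicator_of_notMem hw, zero_mul]
    rw [h3]
    exact h2.measurable
  have hBb : ∀ z, B z ≤ ∫ w, b w ∂μ := fun z =>
    setIntegral_le_integral hbi (Eventually.of_forall hb0)
  have h1 : ∀ z, ∫⁻ w, A.indicator (fun _ => (1 : ENNReal)) (z, w) * ENNReal.ofReal (a z * b w / s) ∂μ =
      ENNReal.ofReal (a z / s * B z) := by
    intro z
    have h2 : ∀ w, A.indicator (fun _ => (1 : ENNReal)) (z, w) * ENNReal.ofReal (a z * b w / s) =
        ENNReal.ofReal (a z / s) * {w | (z, w) ∈ A}.indicator (fun w => ENNReal.ofReal (b w)) w := by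
      intro w
      have e : a z * b w / s = a z / s * b w := by ring
      by_cases hw : (z, w) ∈ A
      · rw [Set.indicator_of_mem (show w ∈ {w | (z, w) ∈ A} from hw), Set.indicator_of_mem hw, one_mul, e,
          ENNReal.ofReal_mul (div_nonneg (ha0 z) hs)]
      · rw [Set.indicator_of_notMem (show w ∉ {w | (z, w) ∈ A} from hw), Set.indicator_of_notMem hw, zero_mul,
          mul_zero]
    rw [lintegral_congr h2, lintegral_const_mul _ (hb.ennreal_ofReal.indicator (hAz z)),
      lintegral_indicator (hAz z), ← ofReal_integral_eq_lintegral_ofReal hbi.integrableOn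
        (Eventually.of_forall hb0), ENNReal.ofReal_mul (div_nonneg (ha0 z) hs)]
  rw [lintegral_congr h1]
  have hi : Integrable (fun z => a z / s * B z) μ := by
    refine (hai.div_const s).mul_bdd (c := ∫ w, b w ∂μ) hBm.aestronglyMeasurable
      (Eventually.of_forall fun z => ?_)
    rw [Real.norm_eq_abs, abs_of_nonneg (hB0 z)]
    exact hBb z
  rw [← ofReal_integral_eq_lintegral_ofReal hi (Eventually.of_forall fun z =>
    mul_nonneg (div_nonneg (ha0 z) hs) (hB0 z))]
  congr 1
  rw [← integral_div]
  congr 1
  funext z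
  ring

theorem ps1 (hR : MeasurableSet {p : X × X | R p.1 p.2}) (hf : Dens μ f)
    (hs : ∀ x, f x ≠ 0 → x ∈ IndS R Finset.univ) {S : Finset (Fin k)} {i j : Fin k}
    (hi : i ∉ S) (hj : j ∉ S) (hij : i ≠ j) :
    0 ≤ cf μ R f S i j ∧ cf μ R f S i j ≤ Ent μ (insert i (insert j S)) f + Ent μ S f -
      Ent μ (insert i S) f - Ent μ (insert j S) f := by
  classical
  set π := Measure.pi fun _ : Fin k => μ with hπ
  set F := mg μ (insert i (insert j S)) f with hF
  set fi := mg μ (insert i S) f with hfi
  set fj := mg μ (insert j S) f with hfj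
  set fS := mg μ S f with hfS
  have dF : Dens μ F := mg_dens hf _
  have di : Dens μ fi := mg_dens hf _
  have dj : Dens μ fj := mg_dens hf _
  have dS : Dens μ fS := mg_dens hf _
  set g : (Fin k → X) → ℝ := fun x => fi x * fj x / fS x with hg
  have hgm : Measurable g := (di.meas.mul dj.meas).div dS.meas
  have hg0 : ∀ x, 0 ≤ g x := fun x => div_nonneg (mul_nonneg (di.nonneg x) (dj.nonneg x)) (dS.nonneg x)
  have mi : ∀ x, Measurable fun z => fi (Function.update x i z) := fun x =>
    di.meas.comp (measurable_update x)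
  have mj : ∀ x, Measurable fun z => fj (Function.update x j z) := fun x =>
    dj.meas.comp (measurable_update x)
  have ii : ∀ x, Integrable (fun z => fi (Function.update x i z)) μ := by
    intro x
    obtain ⟨C, hC⟩ := di.bdd
    refine Integrable.of_bound (mi x).aestronglyMeasurable C (Eventually.of_forall fun z => ?_)
    rw [Real.norm_eq_abs, abs_of_nonneg (di.nonneg _)]
    exact hC _
  have ij : ∀ x, Integrable (fun z => fj (Function.update x j z)) μ := by
    intro x
    obtain ⟨C, hC⟩ := dj.bdd
    refine Integrable.of_bound (mj x).aestronglyMeasurable C (Eventually.of_forall fun z => ?_)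
    rw [Real.norm_eq_abs, abs_of_nonneg (dj.nonneg _)]
    exact hC _
  have si : ∀ x, ∫ z, fi (Function.update x i z) ∂μ = fS x := fun x => (mg_step hf hi x).symm
  have sj : ∀ x, ∫ z, fj (Function.update x j z) ∂μ = fS x := fun x => (mg_step hf hj x).symm
  -- the values of `g` after a change of two coordinates
  have gval : ∀ x z w, g (Function.update (Function.update x i z) j w) =
      fi (Function.update x i z) * fj (Function.update x j w) / fS x := by
    intro x z w
    have e1 : fi (Function.update (Function.update x i z) j w) = fi (Function.update x i z) := by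
      refine mg_congr _ _ fun l hl => ?_
      rw [Function.update_of_ne]
      rintro rfl
      rcases Finset.mem_insert.mp hl with h | h
      · exact hij h.symm
      · exact hj h
    have e2 : fj (Function.update (Function.update x i z) j w) = fj (Function.update x j w) := by
      refine mg_congr _ _ fun l hl => ?_
      by_cases h : l = j
      · rw [h, Function.update_self, Function.update_self]
      · rw [Function.update_of_ne h, Function.update_of_ne h, Function.update_of_ne]
        rintro rfl
        exact hi ((Finset.mem_insert.mp hl).resolve_left h)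
    have e3 : fS (Function.update (Function.update x i z) j w) = fS x := by
      refine mg_congr _ _ fun l hl => ?_
      rw [Function.update_of_ne, Function.update_of_ne]
      · rintro rfl
        exact hi hl
      · rintro rfl
        exact hj hl
    simp only [hg]
    rw [e1, e2, e3]
  -- the mass of `g` over the pairs of values in `A`
  have key : ∀ A : Set (X × X), MeasurableSet A → Measurable (fun x => ∫⁻ z, ∫⁻ w,
        A.indicator (fun _ => (1 : ENNReal)) (z, w) * ENNReal.ofReal (fi (Function.update x i z) *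
          fj (Function.update x j w) / fS x) ∂μ ∂μ) ∧
      ∫⁻ x in {x | (x i, x j) ∈ A}, ENNReal.ofReal (g x) ∂π =
        ∫⁻ x, ∫⁻ z, ∫⁻ w, A.indicator (fun _ => (1 : ENNReal)) (z, w) *
          ENNReal.ofReal (fi (Function.update x i z) * fj (Function.update x j w) / fS x) ∂μ ∂μ ∂π := by
    intro A hA
    have hA' : MeasurableSet {x : Fin k → X | (x i, x j) ∈ A} :=
      hA.preimage ((measurable_pi_apply i).prodMk (measurable_pi_apply j))
    set h : (Fin k → X) → ENNReal := fun x => A.indicator (fun _ => (1 : ENNReal)) (x i, x j) *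
      ENNReal.ofReal (g x) with hh
    have hm : Measurable h := by
      refine Measurable.mul ?_ hgm.ennreal_ofReal
      exact (measurable_const.indicator hA).comp ((measurable_pi_apply i).prodMk (measurable_pi_apply j))
    have hv : ∀ x z w, h (Function.update (Function.update x i z) j w) =
        A.indicator (fun _ => (1 : ENNReal)) (z, w) *
          ENNReal.ofReal (fi (Function.update x i z) * fj (Function.update x j w) / fS x) := by
      intro x z w
      simp only [hh]
      rw [gval, Function.update_self, Function.update_of_ne hij, Function.update_self]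
    have hm1 : Measurable fun x => ∫⁻ z, h (Function.update x j z) ∂μ := by
      have h1 := (hm.lmarginal (fun _ : Fin k => μ) (s := {j}))
      rwa [lmarginal_singleton] at h1
    have hm2 : Measurable fun x => ∫⁻ z, ∫⁻ w, h (Function.update (Function.update x i z) j w) ∂μ ∂μ := by
      have h1 := (hm1.lmarginal (fun _ : Fin k => μ) (s := {i}))
      rwa [lmarginal_singleton] at h1
    simp only [hv] at hm2
    refine ⟨hm2, ?_⟩
    rw [← lintegral_indicator hA']
    have e1 : ∀ x, {x : Fin k → X | (x i, x j) ∈ A}.indicator (fun x => ENNReal.ofReal (g x)) x = h x := by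
      intro x
      simp only [hh]
      by_cases hx : (x i, x j) ∈ A
      · rw [Set.indicator_of_mem (show x ∈ {x : Fin k → X | (x i, x j) ∈ A} from hx), Set.indicator_of_mem hx,
          one_mul]
      · rw [Set.indicator_of_notMem (show x ∉ {x : Fin k → X | (x i, x j) ∈ A} from hx),
          Set.indicator_of_notMem hx, zero_mul]
    rw [lintegral_congr e1, lint_update2_98 i j hm]
    simp only [hv]
    rfl
  have inner := fun (x : Fin k → X) (A : Set (X × X)) (hA : MeasurableSet A) =>
    inner98 (fun z => di.nonneg _) (ii x) (mj x) (fun z => dj.nonneg _) (ij x) (dS.nonneg x) hA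
  -- total mass one
  have htot : ∫⁻ x, ENNReal.ofReal (g x) ∂π = 1 := by
    have h1 := (key Set.univ MeasurableSet.univ).2
    have e0 : {x : Fin k → X | (x i, x j) ∈ (Set.univ : Set (X × X))} = Set.univ := by
      ext x
      simp
    rw [e0, Measure.restrict_univ] at h1
    rw [h1]
    have h2 : ∀ x, ∫⁻ z, ∫⁻ w, (Set.univ : Set (X × X)).indicator (fun _ => (1 : ENNReal)) (z, w) *
        ENNReal.ofReal (fi (Function.update x i z) * fj (Function.update x j w) / fS x) ∂μ ∂μ =
        ENNReal.ofReal (fS x) := by
      intro x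
      rw [inner x Set.univ MeasurableSet.univ]
      congr 1
      have e1 : ∀ z : X, {w : X | (z, w) ∈ (Set.univ : Set (X × X))} = Set.univ := fun z => by
        ext w
        simp
      simp only [e1, Measure.restrict_univ, sj]
      rw [integral_mul_const, si]
      rcases eq_or_ne (fS x) 0 with h0 | h0
      · rw [h0]
        simp
      · field_simp
    rw [lintegral_congr h2, ← ofReal_integral_eq_lintegral_ofReal, dS.int, ENNReal.ofReal_one]
    · obtain ⟨C, hC⟩ := dS.bdd
      refine Integrable.of_bound dS.meas.aestronglyMeasurable C (Eventually.of_forall fun z => ?_)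
      rw [Real.norm_eq_abs, abs_of_nonneg (dS.nonneg _)]
      exact hC _
    · exact Eventually.of_forall dS.nonneg
  -- the mass over the conflicts
  set A : Set (X × X) := {p | R p.1 p.2} with hAdef
  obtain ⟨hGm, hG⟩ := key A hR
  have hH : ∀ x, (∫ z, fi (Function.update x i z) * ∫ w in {w | R z w}, fj (Function.update x j w) ∂μ ∂μ) / fS x =
      (∫⁻ z, ∫⁻ w, A.indicator (fun _ => (1 : ENNReal)) (z, w) *
        ENNReal.ofReal (fi (Function.update x i z) * fj (Function.update x j w) / fS x) ∂μ ∂μ).toReal := by
    intro x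
    rw [inner x A hR, ENNReal.toReal_ofReal]
    · rfl
    · refine div_nonneg (integral_nonneg fun z => mul_nonneg (di.nonneg _) ?_) (dS.nonneg x)
      exact integral_nonneg fun w => dj.nonneg _
  have hfin : ∫⁻ x in {x | (x i, x j) ∈ A}, ENNReal.ofReal (g x) ∂π ≤ 1 := by
    rw [← htot]
    exact setLIntegral_le_lintegral _ _
  have hcf : cf μ R f S i j = (∫⁻ x in {x | (x i, x j) ∈ A}, ENNReal.ofReal (g x) ∂π).toReal := by
    rw [hG]
    have h1 : cf μ R f S i j = ∫ x, (∫⁻ z, ∫⁻ w, A.indicator (fun _ => (1 : ENNReal)) (z, w) *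
        ENNReal.ofReal (fi (Function.update x i z) * fj (Function.update x j w) / fS x) ∂μ ∂μ).toReal ∂π := by
      unfold cf
      exact integral_congr_ae (Eventually.of_forall hH)
    rw [h1]
    refine integral_toReal hGm.aemeasurable ?_
    refine ae_lt_top hGm ?_
    rw [← hG]
    exact (hfin.trans_lt ENNReal.one_lt_top).ne
  have hcf0 : 0 ≤ cf μ R f S i j := by
    rw [hcf]
    exact ENNReal.toReal_nonneg
  refine ⟨hcf0, ?_⟩
  have hA' : MeasurableSet {x : Fin k → X | (x i, x j) ∈ A} :=
    hR.preimage ((measurable_pi_apply i).prodMk (measurable_pi_apply j))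
  have hN : ∫⁻ x in {x | (x i, x j) ∈ A}ᶜ, ENNReal.ofReal (g x) ∂π = ENNReal.ofReal (1 - cf μ R f S i j) := by
    have h1 := lintegral_add_compl (μ := π) (fun x => ENNReal.ofReal (g x)) hA'
    rw [htot] at h1
    rw [ENNReal.ofReal_sub _ hcf0, hcf, ENNReal.ofReal_toReal (hfin.trans_lt ENNReal.one_lt_top).ne,
      ENNReal.ofReal_one]
    exact (ENNReal.sub_eq_of_eq_add_rev (hfin.trans_lt ENNReal.one_lt_top).ne h1.symm).symm
  have hsub : {x | 0 < F x} ⊆ {x | (x i, x j) ∈ A}ᶜ := by
    intro x hx hxA
    have hx' : 0 < F x := hx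
    have h0 : F x = 0 := by
      simp only [hF, mg]
      have h1 : ∀ y, f ((insert i (insert j S)).piecewise x y) = 0 := by
        intro y
        by_contra hne
        have h2 := hs _ hne i (Finset.mem_univ _) j (Finset.mem_univ _) hij
        rw [Finset.piecewise_eq_of_mem _ _ _ (Finset.mem_insert_self _ _),
          Finset.piecewise_eq_of_mem _ _ _ (Finset.mem_insert_of_mem (Finset.mem_insert_self _ _))] at h2
        exact h2 hxA
      simp only [h1, integral_zero]
    exact hx'.ne' h0
  have hgi : ∫⁻ x in {x | 0 < F x}, ENNReal.ofReal (g x) ∂π ≤ ENNReal.ofReal (1 - cf μ R f S i j) := by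
    rw [← hN]
    exact lintegral_mono_set hsub
  have sub1 : insert i S ⊆ insert i (insert j S) := Finset.insert_subset_insert _ (Finset.subset_insert _ _)
  have sub2 : insert j S ⊆ insert i (insert j S) := Finset.subset_insert _ _
  have sub3 : S ⊆ insert i (insert j S) := (Finset.subset_insert _ _).trans sub2
  have pi' : ∀ᵐ x ∂π, 0 < F x → 0 < fi x := by
    have h1 := mg_pos_ae dF (insert i S)
    rwa [hF, mg_mg hf sub1] at h1
  have pj' : ∀ᵐ x ∂π, 0 < F x → 0 < fj x := by
    have h1 := mg_pos_ae dF (insert j S)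
    rwa [hF, mg_mg hf sub2] at h1
  have pS' : ∀ᵐ x ∂π, 0 < F x → 0 < fS x := by
    have h1 := mg_pos_ae dF S
    rwa [hF, mg_mg hf sub3] at h1
  have hpos : ∀ᵐ x ∂π, 0 < F x → 0 < g x := by
    filter_upwards [pi', pj', pS'] with x h1 h2 h3 hx
    exact div_pos (mul_pos (h1 hx) (h2 hx)) (h3 hx)
  have hm : 0 < 1 - cf μ R f S i j := by
    by_contra hcon
    rw [ENNReal.ofReal_of_nonpos (not_lt.mp hcon)] at hgi
    have hFm : MeasurableSet {x | 0 < F x} := measurableSet_lt measurable_const dF.meas
    have h1 := (lintegral_eq_zero_iff hgm.ennreal_ofReal).mp (le_antisymm hgi bot_le)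
    rw [Filter.EventuallyEq, ae_restrict_iff' hFm] at h1
    have h2 : F =ᵐ[π] fun _ => (0 : ℝ) := by
      filter_upwards [h1, hpos] with x hx1 hx2
      by_contra hne
      have h3 : 0 < F x := lt_of_le_of_ne (dF.nonneg x) (Ne.symm hne)
      have h4 := hx1 h3
      rw [Pi.zero_apply, ENNReal.ofReal_eq_zero] at h4
      exact absurd (hx2 h3) (not_lt.mpr h4)
    have h3 := dF.int
    rw [integral_congr_ae h2, integral_zero] at h3
    exact zero_ne_one h3
  -- entropies
  obtain ⟨I1, E1⟩ := ent_int dF (insert i S)
  obtain ⟨I2, E2⟩ := ent_int dF (insert j S)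
  obtain ⟨I3, E3⟩ := ent_int dF S
  rw [ent_mg hf sub1, hF, mg_mg hf sub1] at E1
  rw [ent_mg hf sub2, hF, mg_mg hf sub2] at E2
  rw [ent_mg hf sub3, hF, mg_mg hf sub3] at E3
  rw [hF, mg_mg hf sub1] at I1
  rw [hF, mg_mg hf sub2] at I2
  rw [hF, mg_mg hf sub3] at I3
  have hlog : (fun x => F x * Real.log (g x)) =ᵐ[π]
      fun x => F x * Real.log (fi x) + F x * Real.log (fj x) - F x * Real.log (fS x) := by
    filter_upwards [pi', pj', pS'] with x h1 h2 h3
    rcases (dF.nonneg x).eq_or_lt with h0 | h0
    · simp only [← h0, zero_mul, add_zero, sub_zero]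
    · simp only [hg]
      rw [Real.log_div (mul_pos (h1 h0) (h2 h0)).ne' (h3 h0).ne', Real.log_mul (h1 h0).ne' (h2 h0).ne']
      ring
  have hI : Integrable (fun x => F x * Real.log (g x)) π := ((I1.add I2).sub I3).congr hlog.symm
  have h1 := gibbs dF hgm hg0 hm hgi hpos hI
  have h2 : ∫ x, F x * Real.log (g x) ∂π = Ent μ (insert i S) f + Ent μ (insert j S) f - Ent μ S f := by
    rw [integral_congr_ae hlog, E1, E2, E3]
    have h3 := integral_sub (I1.add I2) I3
    have h4 := integral_add I1 I2
    simp only [Pi.add_apply] at h3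
    rw [h3, h4]
  have h3 : Ent μ Finset.univ F = Ent μ (insert i (insert j S)) f := by
    unfold Ent
    rw [mg_univ]
  have h4 := Real.log_le_sub_one_of_pos hm
  rw [h2, h3] at h1
  linarith

end Pool.Agent.Helper63.SM
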